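import Mathlib

open Set Filter

namespace Pool.Agent.Results.MP_34bddf_lc.NotGenerated

abbrev U := Ultrafilter ℕ+

def mul (F G : U) : U := F.bind fun n => G.map (n * ·)

def add (F G : U) : U := F.bind fun n => G.map (n + ·)

def MAX : Set U := {F | ∀ n : ℕ+, {m | n ∣ m} ∈ F}

def Gamma : Set U := closure {F | add F F = F}

/-- the multiplicative ideal generated by `Gamma` -/
def GenIdeal : Set U :=
  {F | ∃ G ∈ Gamma, F = G ∨ ∃ H, F = mul H G ∨ F = mul G H ∨ ∃ K, F = mul (mul H G) K}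

/-- every member contains a triple `x, y, x + y` -/
def Sch : Set U := {F | ∀ A ∈ F, ∃ x ∈ A, ∃ y ∈ A, x + y ∈ A}

lemma gamma_sub : Gamma ⊆ Sch := fun F hF A hA => by
  obtain ⟨G, g1, g2⟩ := mem_closure_iff.1 hF _ (ultrafilter_isOpen_basic A) hA
  have g3 : A ∈ add G G := g2.symm ▸ g1
  obtain ⟨x, x1, x2⟩ := Ultrafilter.nonempty_of_mem (inter_mem g1 (show _ ∈ G from g3))
  obtain ⟨y, y1, y2⟩ := Ultrafilter.nonempty_of_mem (inter_mem g1 (show _ ∈ G from x2))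
  exact ⟨x, x1, y, y1, y2⟩

lemma sch_mul (F : U) {G : U} (h : G ∈ Sch) : mul F G ∈ Sch ∧ mul G F ∈ Sch := by
  refine ⟨fun A hA => ?_, fun A hA => ?_⟩
  · obtain ⟨n, hn⟩ := Ultrafilter.nonempty_of_mem (show _ ∈ F from hA)
    obtain ⟨x, x1, y, y1, z⟩ := h _ (show _ ∈ G from hn)
    exact ⟨n * x, x1, n * y, y1, mul_add n x y ▸ z⟩
  · obtain ⟨x, x1, y, y1, z⟩ := h _ (show _ ∈ G from hA)
    obtain ⟨m, ⟨m1, m2⟩, m3⟩ := Ultrafilter.nonempty_of_mem (inter_mem (inter_mem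
      (show _ ∈ F from x1) (show _ ∈ F from y1)) (show _ ∈ F from z))
    exact ⟨x * m, m1, y * m, m2, add_mul x y m ▸ m3⟩

lemma gen_sub : GenIdeal ⊆ Sch := by
  rintro F ⟨G, h, rfl | ⟨H, rfl | rfl | ⟨K, rfl⟩⟩⟩
  exacts [gamma_sub h, (sch_mul H (gamma_sub h)).1, (sch_mul H (gamma_sub h)).2,
    (sch_mul K (sch_mul H (gamma_sub h)).1).2]

theorem result : ∃ F ∈ MAX, F ∉ GenIdeal := by
  let f : ℕ → ℕ+ := fun n => ⟨(n + 2).factorial, (n + 2).factorial_pos⟩
  refine ⟨(hyperfilter ℕ).map f, fun a => Nat.hyperfilter_le_atTop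
    ((eventually_ge_atTop (a : ℕ)).mono fun n hn =>
      PNat.dvd_iff.2 (Nat.dvd_factorial a.pos (by omega))), fun h => ?_⟩
  · obtain ⟨_, ⟨a, rfl⟩, _, ⟨b, rfl⟩, c, e⟩ := gen_sub h
      (range f) (univ_mem' (f := (hyperfilter ℕ : Filter ℕ)) fun n => ⟨n, rfl⟩)
    have e1 : (c + 2).factorial = (a + 2).factorial + (b + 2).factorial := congrArg PNat.val e
    have a0 := (a + 2).factorial_pos
    have b0 := (b + 2).factorial_pos
    have a1 : a + 2 < c + 2 := (Nat.factorial_lt (by omega)).1 (by omega)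
    have b1 : b + 2 < c + 2 := (Nat.factorial_lt (by omega)).1 (by omega)
    have a2 := Nat.factorial_le (show a + 2 ≤ c + 1 by omega)
    have b2 := Nat.factorial_le (show b + 2 ≤ c + 1 by omega)
    rw [Nat.factorial_succ] at e1
    have := (c + 1).factorial_pos
    nlinarith

end Pool.Agent.Results.MP_34bddf_lc.NotGenerated
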